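import Pool.Agent.R417.LD.Sieve

/-!
# Semistable curves with a point of order two or three and a small conductor
-/

set_option autoImplicit false

namespace Pool.Agent.R417.BC

open Finset Filter Topology

/-- the product of the primes dividing the discriminant -/
def cond (W : WeierstrassCurve ℤ) : ℕ := ∏ p ∈ W.Δ.natAbs.primeFactors, p

/-- the curve `y² + x y = x³ + m x² + n x` -/
def W2 (m n : ℤ) : WeierstrassCurve ℤ where
  a₁ := 1
  a₂ := m
  a₃ := 0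
  a₄ := n
  a₆ := 0

theorem W2_c4 (m n : ℤ) : (W2 m n).c₄ = (4 * m + 1) ^ 2 - 48 * n := by
  unfold W2 WeierstrassCurve.c₄ WeierstrassCurve.b₂ WeierstrassCurve.b₄
  ring

theorem W2_c6 (m n : ℤ) : (W2 m n).c₆ = (4 * m + 1) * (72 * n - (4 * m + 1) ^ 2) := by
  unfold W2 WeierstrassCurve.c₆ WeierstrassCurve.b₂ WeierstrassCurve.b₄ WeierstrassCurve.b₆
  ring

theorem W2_D (m n : ℤ) : (W2 m n).Δ = n ^ 2 * ((4 * m + 1) ^ 2 - 64 * n) := by
  unfold W2 WeierstrassCurve.Δ WeierstrassCurve.b₂ WeierstrassCurve.b₄ WeierstrassCurve.b₆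
    WeierstrassCurve.b₈
  ring

theorem W2_two (m n : ℤ) : ∃ r : ℚ, 4 * r ^ 3 + (W2 m n).b₂ * r ^ 2 + 2 * (W2 m n).b₄ * r + (W2 m n).b₆ = 0 := by
  refine ⟨0, ?_⟩
  have : (W2 m n).b₆ = 0 := by
    unfold W2 WeierstrassCurve.b₆
    ring
  rw [this]
  push_cast
  ring

/-- the curve `y² + u x y + v y = x³` -/
def W3 (u v : ℤ) : WeierstrassCurve ℤ where
  a₁ := u
  a₂ := 0
  a₃ := v
  a₄ := 0
  a₆ := 0

theorem W3_c4 (u v : ℤ) : (W3 u v).c₄ = u * (u ^ 3 - 24 * v) := by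
  unfold W3 WeierstrassCurve.c₄ WeierstrassCurve.b₂ WeierstrassCurve.b₄
  ring

theorem W3_c6 (u v : ℤ) : (W3 u v).c₆ = -u ^ 6 + 36 * u ^ 3 * v - 216 * v ^ 2 := by
  unfold W3 WeierstrassCurve.c₆ WeierstrassCurve.b₂ WeierstrassCurve.b₄ WeierstrassCurve.b₆
  ring

theorem W3_D (u v : ℤ) : (W3 u v).Δ = v ^ 3 * (u ^ 3 - 27 * v) := by
  unfold W3 WeierstrassCurve.Δ WeierstrassCurve.b₂ WeierstrassCurve.b₄ WeierstrassCurve.b₆
    WeierstrassCurve.b₈
  ring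

theorem W3_three (u v : ℤ) : ∃ r : ℚ, 3 * r ^ 4 + (W3 u v).b₂ * r ^ 3 + 3 * (W3 u v).b₄ * r ^ 2 +
    3 * (W3 u v).b₆ * r + (W3 u v).b₈ = 0 := by
  refine ⟨0, ?_⟩
  have : (W3 u v).b₈ = 0 := by
    unfold W3 WeierstrassCurve.b₈
    ring
  rw [this]
  push_cast
  ring

theorem cop_of {a b : ℤ} (h : ∀ p : ℕ, p.Prime → (p : ℤ) ∣ a → (p : ℤ) ∣ b → False) : IsCoprime a b := by
  rw [Int.isCoprime_iff_gcd_eq_one]
  by_contra hne
  obtain ⟨p, hp, hpd⟩ := Nat.exists_prime_and_dvd hne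
  have h1 : (p : ℤ) ∣ (Int.gcd a b : ℤ) := Int.natCast_dvd_natCast.mpr hpd
  exact h p hp (h1.trans (Int.gcd_dvd_left ..)) (h1.trans (Int.gcd_dvd_right ..))

theorem small_prime {p : ℕ} (hp : p.Prime) {k : ℕ} (h : (p : ℤ) ∣ (k : ℤ)) (hk : k.primeFactors ⊆ {2, 3})
    (hk0 : k ≠ 0) : p = 2 ∨ p = 3 := by
  have h1 : p ∈ k.primeFactors := Nat.mem_primeFactors.mpr ⟨hp, Int.natCast_dvd_natCast.mp h, hk0⟩
  have h2 := hk h1
  rwa [mem_insert, mem_singleton] at h2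

theorem W2_cop {m n : ℤ} (h : ∀ p : ℕ, p.Prime → (p : ℤ) ∣ 4 * m + 1 → (p : ℤ) ∣ n → False) :
    IsCoprime (W2 m n).c₄ (W2 m n).Δ := by
  rw [W2_c4, W2_D]
  refine cop_of (fun p hp h1 h2 => ?_)
  have hpp := Nat.prime_iff_prime_int.mp hp
  rcases hpp.dvd_or_dvd h2 with h3 | h3
  · have h4 : (p : ℤ) ∣ n := hpp.dvd_of_dvd_pow h3
    have h5 : (p : ℤ) ∣ (4 * m + 1) ^ 2 := by
      have := h1.add (h4.mul_left 48)
      rwa [sub_add_cancel] at this
    exact h p hp (hpp.dvd_of_dvd_pow h5) h4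
  · have h4 : (p : ℤ) ∣ 16 * n := by
      have := h1.sub h3
      refine this.trans (dvd_of_eq (by ring))
    rcases hpp.dvd_or_dvd h4 with h5 | h5
    · have h6 : p = 2 := by
        have : (p : ℤ) ∣ 2 ^ 4 := h5.trans (dvd_of_eq (by norm_num))
        have h7 := hpp.dvd_of_dvd_pow this
        have h8 : p ∣ 2 := by exact_mod_cast h7
        exact (Nat.prime_dvd_prime_iff_eq hp Nat.prime_two).mp h8
      rw [h6] at h1
      push_cast at h1
      have h7 : (2 : ℤ) ∣ (4 * m + 1) ^ 2 := by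
        have := h1.add (Dvd.intro (24 * n) (by ring) : (2 : ℤ) ∣ 48 * n)
        rwa [sub_add_cancel] at this
      have h8 := Int.prime_two.dvd_of_dvd_pow h7
      omega
    · have h6 : (p : ℤ) ∣ (4 * m + 1) ^ 2 := by
        have := h1.add (h5.mul_left 48)
        rwa [sub_add_cancel] at this
      exact h p hp (hpp.dvd_of_dvd_pow h6) h5

theorem W3_cop {u v : ℤ} (h : ∀ p : ℕ, p.Prime → (p : ℤ) ∣ u → (p : ℤ) ∣ v → False)
    (h3 : ¬ (3 : ℤ) ∣ u) : IsCoprime (W3 u v).c₄ (W3 u v).Δ := by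
  rw [W3_c4, W3_D]
  refine cop_of (fun p hp h1 h2 => ?_)
  have hpp := Nat.prime_iff_prime_int.mp hp
  have h3' : ∀ (hh : (p : ℤ) ∣ 3), ¬ (p : ℤ) ∣ u := by
    intro hh hu
    have h8 : p ∣ 3 := by exact_mod_cast hh
    have h9 := (Nat.prime_dvd_prime_iff_eq hp Nat.prime_three).mp h8
    rw [h9] at hu
    exact h3 (by exact_mod_cast hu)
  rcases hpp.dvd_or_dvd h2 with h4 | h4
  · have h5 : (p : ℤ) ∣ v := hpp.dvd_of_dvd_pow h4
    rcases hpp.dvd_or_dvd h1 with h6 | h6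
    · exact h p hp h6 h5
    · have h7 : (p : ℤ) ∣ u ^ 3 := by
        have := h6.add (h5.mul_left 24)
        rwa [sub_add_cancel] at this
      exact h p hp (hpp.dvd_of_dvd_pow h7) h5
  · rcases hpp.dvd_or_dvd h1 with h6 | h6
    · have h7 : (p : ℤ) ∣ 3 ^ 3 * v := by
        have h8 : (p : ℤ) ∣ u ^ 3 := dvd_pow h6 (by norm_num)
        have := h8.sub h4
        refine this.trans (dvd_of_eq (by ring))
      rcases hpp.dvd_or_dvd h7 with h8 | h8
      · exact h3' (hpp.dvd_of_dvd_pow h8) h6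
      · exact h p hp h6 h8
    · have h7 : (p : ℤ) ∣ 3 * v := by
        have := h6.sub h4
        refine this.trans (dvd_of_eq (by ring))
      rcases hpp.dvd_or_dvd h7 with h8 | h8
      · refine h3' h8 ?_
        have h9 : (p : ℤ) ∣ u ^ 3 := by
          have := h4.add (((h8.mul_left 9).mul_right v))
          refine this.trans (dvd_of_eq (by ring))
        exact hpp.dvd_of_dvd_pow h9
      · have h9 : (p : ℤ) ∣ u ^ 3 := by
          have := h4.add (h8.mul_left 27)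
          rwa [sub_add_cancel] at this
        exact h p hp (hpp.dvd_of_dvd_pow h9) h8

theorem cond_le_of {W : WeierstrassCurve ℤ} {N : ℕ} (hN : N ≠ 0)
    (h : ∀ p : ℕ, p.Prime → (p : ℤ) ∣ W.Δ → p ∣ N) : cond W ≤ N := by
  unfold cond
  refine Nat.le_of_dvd (Nat.pos_of_ne_zero hN) ?_
  have h1 : W.Δ.natAbs.primeFactors ⊆ N.primeFactors := by
    intro p hp
    have h2 := Nat.prime_of_mem_primeFactors hp
    exact Nat.mem_primeFactors.mpr ⟨h2, h p h2 (Int.natCast_dvd.mpr (Nat.dvd_of_mem_primeFactors hp)), hN⟩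
  exact (prod_dvd_prod_of_subset _ _ _ h1).trans (Nat.prod_primeFactors_dvd N)

/-- the invariants of the family with a point of order two determine the parameters -/
theorem W2_inj {m n m' n' : ℤ} (hm : 0 ≤ m) (hm' : 0 ≤ m') (h : (4 * m + 1) ^ 2 < 64 * n)
    (h' : (4 * m' + 1) ^ 2 < 64 * n') (h4 : (W2 m n).c₄ = (W2 m' n').c₄)
    (h6 : (W2 m n).c₆ = (W2 m' n').c₆) : m = m' ∧ n = n' := by
  rw [W2_c4, W2_c4] at h4
  rw [W2_c6, W2_c6] at h6
  set u := 4 * m + 1 with hu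
  set u' := 4 * m' + 1 with hu'
  have hu0 : 0 < u := by omega
  have hu0' : 0 < u' := by omega
  have e1 : (u - u') * (u ^ 2 + u * u' + u' ^ 2 - 3 * (u' ^ 2 - 48 * n')) = 0 := by
    have k1 : 2 * (u * (72 * n - u ^ 2)) = u ^ 3 - 3 * u * (u ^ 2 - 48 * n) := by ring
    have k2 : 2 * (u' * (72 * n' - u' ^ 2)) = u' ^ 3 - 3 * u' * (u' ^ 2 - 48 * n') := by ring
    have k3 : u ^ 3 - 3 * u * (u' ^ 2 - 48 * n') = u' ^ 3 - 3 * u' * (u' ^ 2 - 48 * n') := by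
      rw [← k2, ← h6, k1, h4]
    linear_combination k3
  have e2 : 0 < u ^ 2 + u * u' + u' ^ 2 - 3 * (u' ^ 2 - 48 * n') := by nlinarith [sq_nonneg (2 * u + u')]
  have e3 : u = u' := by
    rcases mul_eq_zero.mp e1 with h | h
    · omega
    · omega
  constructor
  · omega
  · have : u ^ 2 = u' ^ 2 := by rw [e3]
    omega

/-- the invariants of the family with a point of order three determine the parameters -/
theorem W3_inj {u v u' v' : ℤ} (hu : 0 < u) (hu' : 0 < u') (h4 : (W3 u v).c₄ = (W3 u' v').c₄)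
    (h6 : (W3 u v).c₆ = (W3 u' v').c₆) : u = u' ∧ v = v' := by
  rw [W3_c4, W3_c4] at h4
  rw [W3_c6, W3_c6] at h6
  set c := u' * (u' ^ 3 - 24 * v') with hc
  set d := -u' ^ 6 + 36 * u' ^ 3 * v' - 216 * v' ^ 2 with hd
  have k1 : u ^ 8 - 6 * c * u ^ 4 - 8 * d * u ^ 2 - 3 * c ^ 2 = 0 := by
    rw [← h4, ← h6]; ring
  have k2 : u' ^ 8 - 6 * c * u' ^ 4 - 8 * d * u' ^ 2 - 3 * c ^ 2 = 0 := by
    rw [hc, hd]; ring
  have e1 : (u ^ 2 - u' ^ 2) * (u ^ 2 * u' ^ 2 * (u ^ 4 + u ^ 2 * u' ^ 2 + u' ^ 4 - 6 * c) + 3 * c ^ 2) = 0 := by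
    linear_combination u' ^ 2 * k1 - u ^ 2 * k2
  have e3 : u = u' := by
    by_contra hne
    have h1 : u ^ 2 - u' ^ 2 ≠ 0 := by
      intro h0
      have : (u - u') * (u + u') = 0 := by linear_combination h0
      rcases mul_eq_zero.mp this with h | h
      · exact hne (by omega)
      · omega
    rcases mul_eq_zero.mp e1 with h | h
    · exact h1 h
    · have h2 : 0 < (u ^ 2 - u' ^ 2) ^ 2 := by positivity
      have h3 : 0 < u ^ 2 * u' ^ 2 := by positivity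
      have h5 : u ^ 2 * u' ^ 2 * (u ^ 4 + u ^ 2 * u' ^ 2 + u' ^ 4 - 6 * c) + 3 * c ^ 2 =
          u ^ 2 * u' ^ 2 * (u ^ 2 - u' ^ 2) ^ 2 + 3 * (u ^ 2 * u' ^ 2 - c) ^ 2 := by ring
      rw [h5] at h
      have h6 := mul_pos h3 h2
      nlinarith [sq_nonneg (u ^ 2 * u' ^ 2 - c)]
  refine ⟨e3, ?_⟩
  rw [hc, e3] at h4
  have h7 := mul_left_cancel₀ hu'.ne' h4
  omega

end Pool.Agent.R417.BC
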