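import Pool.Agent.R417.BC.Low

/-!
# The number of semistable curves with a point of order two or three and a small conductor
-/

set_option autoImplicit false

namespace Pool.Agent.R417.BC

open Finset Filter Topology Pool.Agent.R417.LD

/-- invariants of semistable curves with the property `P`, height at most `X ^ 6` and conductor at
most `Z` -/
def Cv (P : WeierstrassCurve ℤ → Prop) (Z : ℝ) (X : ℕ) : Set (ℤ × ℤ) :=
  {q | ∃ W : WeierstrassCurve ℤ, W.Δ ≠ 0 ∧ IsCoprime W.c₄ W.Δ ∧ P W ∧ q = (W.c₄, W.c₆) ∧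
    |W.c₄| ^ 3 ≤ (X : ℤ) ^ 6 ∧ W.c₆ ^ 2 ≤ (X : ℤ) ^ 6 ∧ (cond W : ℝ) ≤ Z}

theorem cv_box {P : WeierstrassCurve ℤ → Prop} {Z : ℝ} {X : ℕ} {q : ℤ × ℤ} (h : q ∈ Cv P Z X) :
    |q.1| ≤ (X : ℤ) ^ 2 ∧ |q.2| ≤ (X : ℤ) ^ 3 := by
  obtain ⟨W, -, -, -, rfl, h4, h6, -⟩ := h
  constructor
  · have : |W.c₄| ^ 3 ≤ ((X : ℤ) ^ 2) ^ 3 := by
      calc |W.c₄| ^ 3 ≤ (X : ℤ) ^ 6 := h4
        _ = _ := by ring
    exact le_of_pow_le_pow_left₀ (by norm_num) (by positivity) this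
  · have : |W.c₆| ^ 2 ≤ ((X : ℤ) ^ 3) ^ 2 := by
      rw [sq_abs]
      calc W.c₆ ^ 2 ≤ (X : ℤ) ^ 6 := h6
        _ = _ := by ring
    exact le_of_pow_le_pow_left₀ (by norm_num) (by positivity) this

theorem cv_finite (P : WeierstrassCurve ℤ → Prop) (Z : ℝ) (X : ℕ) : (Cv P Z X).Finite := by
  refine Set.Finite.subset (Finset.finite_toSet
    (Icc (-((X : ℤ) ^ 2)) ((X : ℤ) ^ 2) ×ˢ Icc (-((X : ℤ) ^ 3)) ((X : ℤ) ^ 3))) ?_
  intro q hq
  obtain ⟨h1, h2⟩ := cv_box hq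
  rw [mem_coe, mem_product, mem_Icc, mem_Icc]
  exact ⟨abs_le.mp h1, abs_le.mp h2⟩

/-- a rational point of order two -/
def Two (W : WeierstrassCurve ℤ) : Prop :=
  ∃ r : ℚ, 4 * r ^ 3 + W.b₂ * r ^ 2 + 2 * W.b₄ * r + W.b₆ = 0

/-- a rational subgroup of order three -/
def Three (W : WeierstrassCurve ℤ) : Prop :=
  ∃ r : ℚ, 3 * r ^ 4 + W.b₂ * r ^ 3 + 3 * W.b₄ * r ^ 2 + 3 * W.b₆ * r + W.b₈ = 0

theorem class_aux {p : ℕ} (hp : p.Prime) {k : ℤ} (hk : ¬ (p : ℤ) ∣ k) {i i' : ℕ}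
    (h : (p : ℤ) ∣ k * ((i : ℤ) - i')) : i ≡ i' [MOD p] := by
  have hpp := Nat.prime_iff_prime_int.mp hp
  rcases hpp.dvd_or_dvd h with h1 | h1
  · exact absurd h1 hk
  · rw [← Int.natCast_modEq_iff]
    exact (Int.modEq_iff_dvd.mpr ((dvd_sub_comm).mp h1))

theorem not_dvd_small {p : ℕ} (hp5 : 5 ≤ p) {k : ℤ} (hk : 0 < k) (hk5 : k < 5) : ¬ (p : ℤ) ∣ k := by
  intro h
  have := Int.le_of_dvd hk h
  omega

theorem core2 {T X : ℕ} {Z : ℝ} (h0 : 10 ≤ T) (h1 : 16 * (1 + Real.log (12 * T : ℕ)) ≤ T)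
    (hZ : 2304 * (T : ℝ) ^ 4 ≤ Z) (hX : 18 * T ≤ X) :
    3 / 2 * (T : ℝ) ^ 3 ≤ ((Cv Two Z X).ncard : ℝ) := by
  classical
  have hT0 : (10 : ℝ) ≤ T := by exact_mod_cast h0
  obtain ⟨S, hS, hcard⟩ := sieve (3 * T) (T ^ 2) (12 * T) (fun i => 4 * i + 1)
    (fun _ j => 3 * ((T : ℤ) ^ 2 + j) + 1)
    (fun i hi => ⟨by omega, by omega⟩)
    (fun p hp hp5 i i' h1 h2 => by
      refine class_aux hp (not_dvd_small hp5 (by norm_num) (by norm_num) : ¬ (p : ℤ) ∣ 4) ?_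
      have := h1.sub h2
      refine this.trans (dvd_of_eq (by ring)))
    (fun p hp hp5 i j j' h1 h2 => by
      refine class_aux hp (not_dvd_small hp5 (by norm_num) (by norm_num) : ¬ (p : ℤ) ∣ 3) ?_
      have := h1.sub h2
      refine this.trans (dvd_of_eq (by ring)))
    (by push_cast; push_cast at h1; linarith)
    (by
      refine h1.trans ?_
      push_cast
      nlinarith)
    (by push_cast; nlinarith [mul_pos (by linarith : (0:ℝ) < T) (by linarith : (0:ℝ) < T)])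
  set n : ℕ → ℤ := fun j => 3 * ((T : ℤ) ^ 2 + j) + 1 with hn
  have hdata : ∀ q ∈ S, (4 * (q.1 : ℤ) + 1) ^ 2 ≤ 144 * (T : ℤ) ^ 2 ∧ 3 * (T : ℤ) ^ 2 + 1 ≤ n q.2 ∧
      n q.2 ≤ 6 * (T : ℤ) ^ 2 ∧ 4 * (q.1 : ℤ) + 1 ≤ 12 * T := by
    intro q hq
    obtain ⟨h2, h3, -⟩ := hS q hq
    have h4 : (q.1 : ℤ) + 1 ≤ 3 * T := by omega
    have h5 : (q.2 : ℤ) + 1 ≤ (T : ℤ) ^ 2 := by exact_mod_cast h3
    have h6 : (0 : ℤ) ≤ q.1 := Int.natCast_nonneg _
    refine ⟨?_, ?_, ?_, by omega⟩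
    · have : 4 * (q.1 : ℤ) + 1 ≤ 12 * T := by omega
      calc (4 * (q.1 : ℤ) + 1) ^ 2 ≤ (12 * (T : ℤ)) ^ 2 := pow_le_pow_left₀ (by omega) this 2
        _ = _ := by ring
    · rw [hn]
      simp only
      have : (0 : ℤ) ≤ q.2 := Int.natCast_nonneg _
      omega
    · rw [hn]
      simp only
      omega
  have hT2 : (100 : ℤ) ≤ (T : ℤ) ^ 2 := by
    have : (10 : ℤ) ≤ T := by exact_mod_cast h0
    nlinarith
  set f : ℕ × ℕ → ℤ × ℤ := fun q => ((W2 q.1 (n q.2)).c₄, (W2 q.1 (n q.2)).c₆) with hf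
  have hinj : Set.InjOn f S := by
    intro q hq q' hq' h
    rw [mem_coe] at hq hq'
    obtain ⟨a1, a2, a3, -⟩ := hdata q hq
    obtain ⟨b1, b2, b3, -⟩ := hdata q' hq'
    have h4 := congrArg Prod.fst h
    have h6 := congrArg Prod.snd h
    simp only [hf] at h4 h6
    obtain ⟨h7, h8⟩ := W2_inj (Int.natCast_nonneg _) (Int.natCast_nonneg _) (by omega) (by omega) h4 h6
    simp only [hn] at h8
    exact Prod.ext (by omega) (by omega)
  have hsub : ((S.image f : Finset (ℤ × ℤ)) : Set (ℤ × ℤ)) ⊆ Cv Two Z X := by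
    intro q hq
    obtain ⟨t, ht, rfl⟩ := mem_image.mp (mem_coe.mp hq)
    obtain ⟨a1, a2, a3, a4⟩ := hdata t ht
    obtain ⟨-, -, hcop⟩ := hS t ht
    set u : ℤ := 4 * (t.1 : ℤ) + 1 with hu
    have hu0 : 0 < u := by omega
    have hD : (W2 t.1 (n t.2)).Δ ≠ 0 := by
      have h5 : u ^ 2 - 64 * n t.2 ≠ 0 := by omega
      rw [W2_D]
      exact mul_ne_zero (pow_ne_zero _ (by omega)) h5
    have hX2 : 324 * (T : ℤ) ^ 2 ≤ (X : ℤ) ^ 2 := by
      have : (18 * (T : ℤ)) ≤ X := by exact_mod_cast hX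
      calc 324 * (T : ℤ) ^ 2 = (18 * (T : ℤ)) ^ 2 := by ring
        _ ≤ _ := pow_le_pow_left₀ (by positivity) this 2
    have hX3 : 5832 * (T : ℤ) ^ 3 ≤ (X : ℤ) ^ 3 := by
      have : (18 * (T : ℤ)) ≤ X := by exact_mod_cast hX
      calc 5832 * (T : ℤ) ^ 3 = (18 * (T : ℤ)) ^ 3 := by ring
        _ ≤ _ := pow_le_pow_left₀ (by positivity) this 3
    refine ⟨W2 t.1 (n t.2), hD, W2_cop ?_, W2_two _ _, rfl, ?_, ?_, ?_⟩
    · intro p hp h2 h3
      have hpp := Nat.prime_iff_prime_int.mp hp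
      have hp2 : p ≠ 2 := by
        rintro rfl
        push_cast at h2
        omega
      have hp3 : p ≠ 3 := by
        rintro rfl
        simp only [hn] at h3
        push_cast at h3
        omega
      have hp4 : p ≠ 4 := by
        rintro rfl
        exact absurd hp (by norm_num)
      have hp5 : 5 ≤ p := by
        have := hp.two_le
        omega
      exact hcop p hp hp5 h2 h3
    · have h4 : |(W2 t.1 (n t.2)).c₄| ≤ (X : ℤ) ^ 2 := by
        rw [W2_c4, abs_le]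
        constructor
        · nlinarith [sq_nonneg u]
        · nlinarith [sq_nonneg u]
      calc |(W2 t.1 (n t.2)).c₄| ^ 3 ≤ ((X : ℤ) ^ 2) ^ 3 := pow_le_pow_left₀ (abs_nonneg _) h4 3
        _ = _ := by ring
    · have h6 : |(W2 t.1 (n t.2)).c₆| ≤ (X : ℤ) ^ 3 := by
        rw [W2_c6, abs_mul, abs_of_pos hu0]
        have e1 : |72 * n t.2 - u ^ 2| ≤ 432 * (T : ℤ) ^ 2 := by
          rw [abs_le]
          constructor
          · nlinarith [sq_nonneg u]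
          · nlinarith [sq_nonneg u]
        calc u * |72 * n t.2 - u ^ 2| ≤ (12 * T) * (432 * (T : ℤ) ^ 2) := by
              gcongr
          _ = 5184 * (T : ℤ) ^ 3 := by ring
          _ ≤ 5832 * (T : ℤ) ^ 3 := by
              have : (0 : ℤ) ≤ (T : ℤ) ^ 3 := by positivity
              linarith
          _ ≤ _ := hX3
      calc (W2 t.1 (n t.2)).c₆ ^ 2 = |(W2 t.1 (n t.2)).c₆| ^ 2 := (sq_abs _).symm
        _ ≤ ((X : ℤ) ^ 3) ^ 2 := pow_le_pow_left₀ (abs_nonneg _) h6 2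
        _ = _ := by ring
    · have hN : cond (W2 t.1 (n t.2)) ≤ (n t.2 * (64 * n t.2 - u ^ 2)).natAbs := by
        refine cond_le_of ?_ ?_
        · refine Int.natAbs_ne_zero.mpr (mul_ne_zero (by omega) (by omega))
        · intro p hp hpd
          have hpp := Nat.prime_iff_prime_int.mp hp
          rw [W2_D] at hpd
          rw [← Int.natCast_dvd]
          rcases hpp.dvd_or_dvd hpd with h2 | h2
          · exact (hpp.dvd_of_dvd_pow h2).mul_right _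
          · have h3 : (p : ℤ) ∣ 64 * n t.2 - u ^ 2 := (dvd_sub_comm).mp h2
            exact h3.mul_left _
      have h2 : ((n t.2 * (64 * n t.2 - u ^ 2)).natAbs : ℤ) ≤ 2304 * (T : ℤ) ^ 4 := by
        rw [Int.natCast_natAbs, abs_of_nonneg (mul_nonneg (by omega) (by omega))]
        calc n t.2 * (64 * n t.2 - u ^ 2) ≤ (6 * (T : ℤ) ^ 2) * (384 * (T : ℤ) ^ 2) := by
              have e1 : 64 * n t.2 - u ^ 2 ≤ 384 * (T : ℤ) ^ 2 := by nlinarith [sq_nonneg u]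
              have e2 : 0 ≤ 64 * n t.2 - u ^ 2 := by omega
              gcongr
          _ = _ := by ring
      have h3 : ((cond (W2 t.1 (n t.2)) : ℕ) : ℤ) ≤ 2304 * (T : ℤ) ^ 4 := by
        refine le_trans ?_ h2
        exact_mod_cast hN
      refine le_trans ?_ hZ
      exact_mod_cast h3
  have h2 : (S.card : ℝ) ≤ ((Cv Two Z X).ncard : ℝ) := by
    rw [← card_image_of_injOn hinj, ← Set.ncard_coe_finset]
    exact_mod_cast Set.ncard_le_ncard hsub (cv_finite _ _ _)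
  refine le_trans (le_of_eq ?_) (hcard.trans h2)
  push_cast
  ring

theorem core3 {T X : ℕ} {Z : ℝ} (h0 : 10 ≤ T) (h1 : 16 * (1 + Real.log (6 * T : ℕ)) ≤ T)
    (hZ : 432 * (T : ℝ) ^ 6 ≤ Z) (hX : 40 * T ^ 2 ≤ X) :
    1 / 2 * (T : ℝ) ^ 4 ≤ ((Cv Three Z X).ncard : ℝ) := by
  classical
  have hT0 : (10 : ℝ) ≤ T := by exact_mod_cast h0
  obtain ⟨S, hS, hcard⟩ := sieve T (T ^ 3) (6 * T) (fun i => 6 * i + 1)
    (fun _ j => (T : ℤ) ^ 3 + 1 + j)
    (fun i hi => ⟨by omega, by omega⟩)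
    (fun p hp hp5 i i' h1 h2 => by
      refine class_aux hp (k := 6) ?_ ?_
      · intro h
        have h3 : p ∣ 6 := by exact_mod_cast h
        have h4 := Nat.le_of_dvd (by norm_num) h3
        interval_cases p
        · norm_num at h3
        · exact absurd hp (by norm_num)
      · have := h1.sub h2
        refine this.trans (dvd_of_eq (by ring)))
    (fun p hp hp5 i j j' h1 h2 => by
      refine class_aux hp (not_dvd_small hp5 (by norm_num) (by norm_num) : ¬ (p : ℤ) ∣ 1) ?_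
      have := h1.sub h2
      refine this.trans (dvd_of_eq (by ring)))
    (by push_cast; push_cast at h1; linarith)
    (by
      refine h1.trans ?_
      push_cast
      nlinarith [sq_nonneg ((T : ℝ) - 1)])
    (by
      push_cast
      have : (1000 : ℝ) ≤ (T : ℝ) ^ 3 := by
        calc (1000 : ℝ) = 10 ^ 3 := by norm_num
          _ ≤ _ := pow_le_pow_left₀ (by norm_num) hT0 3
      nlinarith)
  set v : ℕ → ℤ := fun j => (T : ℤ) ^ 3 + 1 + j with hv
  have hdata : ∀ q ∈ S, 6 * (q.1 : ℤ) + 1 ≤ 6 * T ∧ (T : ℤ) ^ 3 + 1 ≤ v q.2 ∧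
      v q.2 ≤ 2 * (T : ℤ) ^ 3 := by
    intro q hq
    obtain ⟨h2, h3, -⟩ := hS q hq
    have h4 : (q.1 : ℤ) + 1 ≤ T := by omega
    have h5 : (q.2 : ℤ) + 1 ≤ (T : ℤ) ^ 3 := by exact_mod_cast h3
    refine ⟨by omega, ?_, ?_⟩
    · rw [hv]
      simp only
      have : (0 : ℤ) ≤ q.2 := Int.natCast_nonneg _
      omega
    · rw [hv]
      simp only
      omega
  have hT3 : (0 : ℤ) < (T : ℤ) ^ 3 := by positivity
  set f : ℕ × ℕ → ℤ × ℤ := fun q => ((W3 (6 * q.1 + 1) (v q.2)).c₄, (W3 (6 * q.1 + 1) (v q.2)).c₆) with hf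
  have hinj : Set.InjOn f S := by
    intro q hq q' hq' h
    rw [mem_coe] at hq hq'
    have h4 := congrArg Prod.fst h
    have h6 := congrArg Prod.snd h
    simp only [hf] at h4 h6
    obtain ⟨h7, h8⟩ := W3_inj (by omega) (by omega) h4 h6
    simp only [hv] at h8
    exact Prod.ext (by omega) (by omega)
  have hsub : ((S.image f : Finset (ℤ × ℤ)) : Set (ℤ × ℤ)) ⊆ Cv Three Z X := by
    intro q hq
    obtain ⟨t, ht, rfl⟩ := mem_image.mp (mem_coe.mp hq)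
    obtain ⟨a1, a2, a3⟩ := hdata t ht
    obtain ⟨-, -, hcop⟩ := hS t ht
    set u : ℤ := 6 * (t.1 : ℤ) + 1 with hu
    have hu0 : 0 < u := by omega
    have hu3 : u ^ 3 ≤ 216 * (T : ℤ) ^ 3 := by
      calc u ^ 3 ≤ (6 * (T : ℤ)) ^ 3 := pow_le_pow_left₀ hu0.le a1 3
        _ = _ := by ring
    have hu30 : 0 < u ^ 3 := by positivity
    have h3u : ¬ (3 : ℤ) ∣ u := by omega
    have hne : u ^ 3 - 27 * v t.2 ≠ 0 := by
      intro h
      refine h3u (Int.prime_three.dvd_of_dvd_pow (n := 3) ⟨9 * v t.2, ?_⟩)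
      linarith
    have hD : (W3 u (v t.2)).Δ ≠ 0 := by
      rw [W3_D]
      exact mul_ne_zero (pow_ne_zero _ (by omega)) hne
    have hX0 : 40 * (T : ℤ) ^ 2 ≤ X := by exact_mod_cast hX
    have hX2 : 1600 * (T : ℤ) ^ 4 ≤ (X : ℤ) ^ 2 := by
      calc 1600 * (T : ℤ) ^ 4 = (40 * (T : ℤ) ^ 2) ^ 2 := by ring
        _ ≤ _ := pow_le_pow_left₀ (by positivity) hX0 2
    have hX3 : 64000 * (T : ℤ) ^ 6 ≤ (X : ℤ) ^ 3 := by
      calc 64000 * (T : ℤ) ^ 6 = (40 * (T : ℤ) ^ 2) ^ 3 := by ring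
        _ ≤ _ := pow_le_pow_left₀ (by positivity) hX0 3
    have hT4 : (0 : ℤ) ≤ (T : ℤ) ^ 4 := by positivity
    have hT6 : (0 : ℤ) ≤ (T : ℤ) ^ 6 := by positivity
    refine ⟨W3 u (v t.2), hD, W3_cop ?_ h3u, W3_three _ _, rfl, ?_, ?_, ?_⟩
    · intro p hp h2 h3
      have hp2 : p ≠ 2 := by
        rintro rfl
        push_cast at h2
        omega
      have hp3 : p ≠ 3 := by
        rintro rfl
        exact h3u (by exact_mod_cast h2)
      have hp4 : p ≠ 4 := by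
        rintro rfl
        exact absurd hp (by norm_num)
      have hp5 : 5 ≤ p := by
        have := hp.two_le
        omega
      exact hcop p hp hp5 h2 h3
    · have h4 : |(W3 u (v t.2)).c₄| ≤ (X : ℤ) ^ 2 := by
        rw [W3_c4, abs_mul, abs_of_pos hu0]
        have e1 : |u ^ 3 - 24 * v t.2| ≤ 216 * (T : ℤ) ^ 3 := by
          rw [abs_le]
          constructor <;> linarith
        calc u * |u ^ 3 - 24 * v t.2| ≤ (6 * T) * (216 * (T : ℤ) ^ 3) := by gcongr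
          _ = 1296 * (T : ℤ) ^ 4 := by ring
          _ ≤ 1600 * (T : ℤ) ^ 4 := by linarith
          _ ≤ _ := hX2
      calc |(W3 u (v t.2)).c₄| ^ 3 ≤ ((X : ℤ) ^ 2) ^ 3 := pow_le_pow_left₀ (abs_nonneg _) h4 3
        _ = _ := by ring
    · have h6 : |(W3 u (v t.2)).c₆| ≤ (X : ℤ) ^ 3 := by
        have k1 : u ^ 6 ≤ 46656 * (T : ℤ) ^ 6 := by
          calc u ^ 6 = (u ^ 3) ^ 2 := by ring
            _ ≤ (216 * (T : ℤ) ^ 3) ^ 2 := pow_le_pow_left₀ hu30.le hu3 2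
            _ = _ := by ring
        have k2 : u ^ 3 * v t.2 ≤ 432 * (T : ℤ) ^ 6 := by
          calc u ^ 3 * v t.2 ≤ (216 * (T : ℤ) ^ 3) * (2 * (T : ℤ) ^ 3) := by
                gcongr
            _ = _ := by ring
        have k3 : v t.2 ^ 2 ≤ 4 * (T : ℤ) ^ 6 := by
          calc v t.2 ^ 2 ≤ (2 * (T : ℤ) ^ 3) ^ 2 := pow_le_pow_left₀ (by omega) a3 2
            _ = _ := by ring
        have k4 : 0 ≤ u ^ 6 := by positivity
        have k5 : 0 ≤ u ^ 3 * v t.2 := mul_nonneg hu30.le (by omega)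
        have k6 : 0 ≤ v t.2 ^ 2 := sq_nonneg _
        rw [W3_c6, abs_le]
        constructor <;> nlinarith
      calc (W3 u (v t.2)).c₆ ^ 2 = |(W3 u (v t.2)).c₆| ^ 2 := (sq_abs _).symm
        _ ≤ ((X : ℤ) ^ 3) ^ 2 := pow_le_pow_left₀ (abs_nonneg _) h6 2
        _ = _ := by ring
    · have hN : cond (W3 u (v t.2)) ≤ (v t.2 * (u ^ 3 - 27 * v t.2)).natAbs := by
        refine cond_le_of ?_ ?_
        · exact Int.natAbs_ne_zero.mpr (mul_ne_zero (by omega) hne)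
        · intro p hp hpd
          have hpp := Nat.prime_iff_prime_int.mp hp
          rw [W3_D] at hpd
          rw [← Int.natCast_dvd]
          rcases hpp.dvd_or_dvd hpd with h2 | h2
          · exact (hpp.dvd_of_dvd_pow h2).mul_right _
          · exact h2.mul_left _
      have h2 : ((v t.2 * (u ^ 3 - 27 * v t.2)).natAbs : ℤ) ≤ 432 * (T : ℤ) ^ 6 := by
        rw [Int.natCast_natAbs, abs_mul, abs_of_nonneg (by omega : 0 ≤ v t.2)]
        have e1 : |u ^ 3 - 27 * v t.2| ≤ 216 * (T : ℤ) ^ 3 := by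
          rw [abs_le]
          constructor <;> linarith
        calc v t.2 * |u ^ 3 - 27 * v t.2| ≤ (2 * (T : ℤ) ^ 3) * (216 * (T : ℤ) ^ 3) := by
              gcongr
          _ = _ := by ring
      have h3 : ((cond (W3 u (v t.2)) : ℕ) : ℤ) ≤ 432 * (T : ℤ) ^ 6 := by
        refine le_trans ?_ h2
        exact_mod_cast hN
      refine le_trans ?_ hZ
      exact_mod_cast h3
  have h2 : (S.card : ℝ) ≤ ((Cv Three Z X).ncard : ℝ) := by
    rw [← card_image_of_injOn hinj, ← Set.ncard_coe_finset]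
    exact_mod_cast Set.ncard_le_ncard hsub (cv_finite _ _ _)
  refine le_trans (le_of_eq ?_) (hcard.trans h2)
  push_cast
  ring

end Pool.Agent.R417.BC
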