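import Pool.Agent.R417.BC.Low2
import Pool.Agent.R417.LD.Top
import Pool.Agent.Y670.TC.Glb
import Pool.Agent.Y670.TI.Asm

/-!
# Semistable curves with a point of order two or a subgroup of order three, by conductor
-/

set_option autoImplicit false

namespace Pool.Agent.R417.BC

open Finset Filter Topology
open Pool.Agent.R417.LD (ev_log)
open Pool.Agent.H39R3 (GMin condW)
open Pool.Agent.Y670.TC (CW)

theorem ev_T (a : ℝ) : ∃ T₁ : ℝ, 10 ≤ T₁ ∧ ∀ T : ℕ, T₁ ≤ T →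
    16 * (1 + (a + Real.log T)) ≤ T := by
  obtain ⟨x, hx⟩ := eventually_atTop.1 (ev_log (16 * (1 + a)) 16 1 one_pos)
  refine ⟨max x 10, le_max_right _ _, fun T hT => ?_⟩
  have h1 := hx T ((le_max_left _ _).trans hT)
  rw [Real.rpow_one] at h1
  linarith

theorem low2 : ∃ Z₀ : ℝ, ∀ (Z : ℝ) (X : ℕ), Z₀ ≤ Z → Z ≤ ((X : ℝ) / 3) ^ 4 →
    1 / 2000 * Z ^ ((3 : ℝ) / 4) ≤ ((Cv Two Z X).ncard : ℝ) := by
  obtain ⟨T₁, hT₁, h⟩ := ev_T (Real.log 12)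
  refine ⟨2304 * (2 * T₁) ^ 4, fun Z X hZ hX => ?_⟩
  have hZ0 : 0 < Z := lt_of_lt_of_le (by positivity) hZ
  set y := (Z / 2304) ^ ((1 : ℝ) / 4) with hy
  have hy0 : 0 ≤ y := by positivity
  have hy4 : y ^ 4 = Z / 2304 := by
    rw [hy, ← Real.rpow_natCast, ← Real.rpow_mul (by positivity)]
    norm_num
  have hyT : 2 * T₁ ≤ y := by
    refine le_of_pow_le_pow_left₀ (n := 4) (by norm_num) hy0 ?_
    rw [hy4, le_div_iff₀ (by norm_num)]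
    linarith
  set T := ⌊y⌋₊ with hT
  have hTy : (T : ℝ) ≤ y := Nat.floor_le hy0
  have hTy2 : y / 2 ≤ T := by
    have := Nat.lt_floor_add_one y
    linarith
  have hTT : T₁ ≤ T := by linarith
  have h10 : 10 ≤ T := by
    have : (10 : ℝ) ≤ T := by linarith
    exact_mod_cast this
  have hT0 : (0 : ℝ) < T := by linarith
  have hlog : 16 * (1 + Real.log ((12 * T : ℕ) : ℝ)) ≤ T := by
    have := h T hTT
    push_cast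
    rwa [Real.log_mul (by norm_num) hT0.ne']
  have hyX : 18 * y ≤ X := by
    refine le_of_pow_le_pow_left₀ (n := 4) (by norm_num) (Nat.cast_nonneg _) ?_
    have e1 : (18 * y) ^ 4 = 104976 * (Z / 2304) := by rw [mul_pow, hy4]; norm_num
    have e2 : ((X : ℝ) / 3) ^ 4 = (X : ℝ) ^ 4 / 81 := by ring
    rw [e1]
    rw [e2] at hX
    have e3 : (0 : ℝ) ≤ (X : ℝ) ^ 4 := by positivity
    linarith
  have hTX : 18 * T ≤ X := by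
    have : (18 * T : ℝ) ≤ X := by linarith
    exact_mod_cast this
  have hc := core2 (Z := Z) h10 hlog (by
    calc 2304 * (T : ℝ) ^ 4 ≤ 2304 * y ^ 4 := by gcongr
      _ = Z := by rw [hy4]; ring) hTX
  refine le_trans ?_ hc
  have e1 : Z ^ ((3 : ℝ) / 4) ≤ 333 * y ^ 3 := by
    refine le_of_pow_le_pow_left₀ (n := 4) (by norm_num) (by positivity) ?_
    have e2 : (Z ^ ((3 : ℝ) / 4)) ^ 4 = Z ^ 3 := by
      rw [← Real.rpow_natCast, ← Real.rpow_mul hZ0.le, ← Real.rpow_natCast Z 3]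
      norm_num
    have e3 : Z = 2304 * y ^ 4 := by rw [hy4]; ring
    rw [e2, e3]
    have e4 : (0 : ℝ) ≤ y ^ 12 := by positivity
    nlinarith
  have e5 : (y / 2) ^ 3 ≤ (T : ℝ) ^ 3 := pow_le_pow_left₀ (by positivity) hTy2 3
  have e6 : (0 : ℝ) ≤ y ^ 3 := by positivity
  nlinarith

theorem low3 : ∃ Z₀ : ℝ, ∀ (Z : ℝ) (X : ℕ), Z₀ ≤ Z → 150 * Z ≤ (X : ℝ) ^ 3 →
    1 / 2000 * Z ^ ((2 : ℝ) / 3) ≤ ((Cv Three Z X).ncard : ℝ) := by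
  obtain ⟨T₁, hT₁, h⟩ := ev_T (Real.log 6)
  refine ⟨432 * (2 * T₁) ^ 6, fun Z X hZ hX => ?_⟩
  have hZ0 : 0 < Z := lt_of_lt_of_le (by positivity) hZ
  set y := (Z / 432) ^ ((1 : ℝ) / 6) with hy
  have hy0 : 0 ≤ y := by positivity
  have hy6 : y ^ 6 = Z / 432 := by
    rw [hy, ← Real.rpow_natCast, ← Real.rpow_mul (by positivity)]
    norm_num
  have hyT : 2 * T₁ ≤ y := by
    refine le_of_pow_le_pow_left₀ (n := 6) (by norm_num) hy0 ?_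
    rw [hy6, le_div_iff₀ (by norm_num)]
    linarith
  set T := ⌊y⌋₊ with hT
  have hTy : (T : ℝ) ≤ y := Nat.floor_le hy0
  have hTy2 : y / 2 ≤ T := by
    have := Nat.lt_floor_add_one y
    linarith
  have hTT : T₁ ≤ T := by linarith
  have h10 : 10 ≤ T := by
    have : (10 : ℝ) ≤ T := by linarith
    exact_mod_cast this
  have hT0 : (0 : ℝ) < T := by linarith
  have hlog : 16 * (1 + Real.log ((6 * T : ℕ) : ℝ)) ≤ T := by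
    have := h T hTT
    push_cast
    rwa [Real.log_mul (by norm_num) hT0.ne']
  have hyX : 40 * y ^ 2 ≤ X := by
    refine le_of_pow_le_pow_left₀ (n := 3) (by norm_num) (Nat.cast_nonneg _) ?_
    have e1 : (40 * y ^ 2) ^ 3 = 64000 * (Z / 432) := by rw [← hy6]; ring
    rw [e1]
    linarith
  have hTX : 40 * T ^ 2 ≤ X := by
    have e1 : (T : ℝ) ^ 2 ≤ y ^ 2 := pow_le_pow_left₀ hT0.le hTy 2
    have : (40 * T ^ 2 : ℝ) ≤ X := by linarith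
    exact_mod_cast this
  have hc := core3 (Z := Z) h10 hlog (by
    calc 432 * (T : ℝ) ^ 6 ≤ 432 * y ^ 6 := by gcongr
      _ = Z := by rw [hy6]; ring) hTX
  refine le_trans ?_ hc
  have e1 : Z ^ ((2 : ℝ) / 3) ≤ 572 / 10 * y ^ 4 := by
    refine le_of_pow_le_pow_left₀ (n := 3) (by norm_num) (by positivity) ?_
    have e2 : (Z ^ ((2 : ℝ) / 3)) ^ 3 = Z ^ 2 := by
      rw [← Real.rpow_natCast, ← Real.rpow_mul hZ0.le, ← Real.rpow_natCast Z 2]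
      norm_num
    have e3 : Z = 432 * y ^ 6 := by rw [hy6]; ring
    rw [e2, e3]
    have e4 : (0 : ℝ) ≤ y ^ 12 := by positivity
    nlinarith
  have e5 : (y / 2) ^ 4 ≤ (T : ℝ) ^ 4 := pow_le_pow_left₀ (by positivity) hTy2 4
  have e6 : (0 : ℝ) ≤ y ^ 4 := by positivity
  nlinarith

/-- coprime invariants: the equation is a global minimal one -/
theorem gmin_of {W : WeierstrassCurve ℤ} (hD : W.Δ ≠ 0) (h : IsCoprime W.c₄ W.Δ) : GMin W := by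
  refine ⟨hD, fun W' hW => ?_⟩
  obtain ⟨C, hC⟩ := hW
  have h1 := congrArg WeierstrassCurve.Δ hC
  have h2 := congrArg WeierstrassCurve.c₄ hC
  rw [WeierstrassCurve.variableChange_Δ, WeierstrassCurve.map_Δ, WeierstrassCurve.map_Δ] at h1
  rw [WeierstrassCurve.variableChange_c₄, WeierstrassCurve.map_c₄, WeierstrassCurve.map_c₄] at h2
  simp only [eq_intCast] at h1 h2
  set v : ℚ := ((C.u⁻¹ : ℚˣ) : ℚ) with hv
  have hv0 : v ≠ 0 := (C.u⁻¹).ne_zero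
  have hcop : IsCoprime (v.num) (v.den : ℤ) := v.isCoprime_num_den
  have hs0 : (v.den : ℚ) ≠ 0 := by exact_mod_cast v.den_nz
  have hvd : v * v.den = v.num := Rat.mul_den_eq_num v
  have e1 : v.num ^ 12 * W.Δ = (v.den : ℤ) ^ 12 * W'.Δ := by
    have : (v.num : ℚ) ^ 12 * (W.Δ : ℚ) = (v.den : ℚ) ^ 12 * (W'.Δ : ℚ) := by
      rw [← h1, ← hvd]; ring
    exact_mod_cast this
  have e2 : v.num ^ 4 * W.c₄ = (v.den : ℤ) ^ 4 * W'.c₄ := by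
    have : (v.num : ℚ) ^ 4 * (W.c₄ : ℚ) = (v.den : ℚ) ^ 4 * (W'.c₄ : ℚ) := by
      rw [← h2, ← hvd]; ring
    exact_mod_cast this
  have d1 : (v.den : ℤ) ∣ W.Δ := by
    have : (v.den : ℤ) ^ 12 ∣ W.Δ :=
      (hcop.symm.pow (m := 12) (n := 12)).dvd_of_dvd_mul_left ⟨_, e1⟩
    exact (dvd_pow_self _ (by norm_num)).trans this
  have d2 : (v.den : ℤ) ∣ W.c₄ := by
    have : (v.den : ℤ) ^ 4 ∣ W.c₄ :=
      (hcop.symm.pow (m := 4) (n := 4)).dvd_of_dvd_mul_left ⟨_, e2⟩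
    exact (dvd_pow_self _ (by norm_num)).trans this
  have d3 : IsUnit (v.den : ℤ) := h.isUnit_of_dvd' d2 d1
  have d4 : (v.den : ℤ) = 1 := by
    rcases Int.isUnit_iff.mp d3 with h | h
    · exact h
    · have : (0 : ℤ) ≤ v.den := Int.natCast_nonneg _
      omega
  rw [d4, one_pow, one_mul] at e1
  rw [← e1, abs_mul, abs_pow]
  have hn0 : v.num ≠ 0 := Rat.num_ne_zero.mpr hv0
  have h5 : 1 ≤ |v.num| := Int.one_le_abs hn0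
  have h6 : (1 : ℤ) ≤ |v.num| ^ 12 := one_le_pow₀ h5
  nlinarith [abs_nonneg W.Δ]

theorem condW_le {W : WeierstrassCurve ℤ} (h : IsCoprime W.c₄ W.Δ) : condW W ≤ cond W := by
  unfold condW cond
  calc ∏ p ∈ W.Δ.natAbs.primeFactors.filter (fun p => 5 ≤ p), (if (p : ℤ) ∣ W.c₄ then p ^ 2 else p)
      = ∏ p ∈ W.Δ.natAbs.primeFactors.filter (fun p => 5 ≤ p), p := by
        refine prod_congr rfl (fun p hp => ?_)
        have hp1 := (mem_filter.mp hp).1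
        rw [if_neg]
        intro h4
        have hpp := Nat.prime_iff_prime_int.mp (Nat.prime_of_mem_primeFactors hp1)
        have hd : (p : ℤ) ∣ W.Δ := Int.natCast_dvd.mpr (Nat.dvd_of_mem_primeFactors hp1)
        exact hpp.not_isUnit (h.isUnit_of_dvd' h4 hd)
    _ ≤ ∏ p ∈ W.Δ.natAbs.primeFactors, p :=
        prod_le_prod_of_subset_of_one_le' (filter_subset _ _)
          (fun p hp _ => (Nat.prime_of_mem_primeFactors hp).one_lt.le)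

theorem cv_sub (P : WeierstrassCurve ℤ → Prop) (Z : ℝ) (X : ℕ) : Cv P Z X ⊆ CW P Z X := by
  rintro q ⟨W, h1, h2, h3, h4, h5, h6, h7⟩
  refine ⟨W, gmin_of h1 h2, h3, h4, h5, h6, le_trans ?_ h7⟩
  exact_mod_cast condW_le h2

/-- the exceptions to `|Δ| ≤ c₀ N ^ κ` -/
def Ec (P : WeierstrassCurve ℤ → Prop) (κ c₀ : ℝ) (X : ℕ) : Set (ℤ × ℤ) :=
  {q | ∃ W : WeierstrassCurve ℤ, W.Δ ≠ 0 ∧ IsCoprime W.c₄ W.Δ ∧ P W ∧ q = (W.c₄, W.c₆) ∧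
    |W.c₄| ^ 3 ≤ (X : ℤ) ^ 6 ∧ W.c₆ ^ 2 ≤ (X : ℤ) ^ 6 ∧ c₀ * (cond W : ℝ) ^ κ < |(W.Δ : ℝ)|}

theorem ec_sub (P : WeierstrassCurve ℤ → Prop) {κ c₀ : ℝ} (hκ : 0 < κ) (hc : 0 < c₀) (X : ℕ) :
    Ec P κ c₀ X ⊆ Cv P (((X : ℝ) ^ 6 / c₀) ^ (1 / κ)) X := by
  rintro q ⟨W, h1, h2, h3, h4, h5, h6, h7⟩
  refine ⟨W, h1, h2, h3, h4, h5, h6, ?_⟩
  have h5R : |(W.c₄ : ℝ)| ^ 3 ≤ (X : ℝ) ^ 6 := by exact_mod_cast h5
  have h6R : (W.c₆ : ℝ) ^ 2 ≤ (X : ℝ) ^ 6 := by exact_mod_cast h6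
  have hrel : 1728 * (W.Δ : ℝ) = (W.c₄ : ℝ) ^ 3 - (W.c₆ : ℝ) ^ 2 := by exact_mod_cast W.c_relation
  have e1 : 1728 * |(W.Δ : ℝ)| ≤ |(W.c₄ : ℝ)| ^ 3 + (W.c₆ : ℝ) ^ 2 := by
    calc 1728 * |(W.Δ : ℝ)| = |1728 * (W.Δ : ℝ)| := by rw [abs_mul]; norm_num
      _ = |(W.c₄ : ℝ) ^ 3 - (W.c₆ : ℝ) ^ 2| := by rw [hrel]
      _ ≤ |(W.c₄ : ℝ) ^ 3| + |(W.c₆ : ℝ) ^ 2| := abs_sub _ _
      _ = _ := by rw [abs_pow, abs_of_nonneg (sq_nonneg (W.c₆ : ℝ))]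
  have e2 : |(W.Δ : ℝ)| ≤ (X : ℝ) ^ 6 := by
    have : 0 ≤ |(W.Δ : ℝ)| := abs_nonneg _
    linarith
  have h8 : (cond W : ℝ) ^ κ ≤ (X : ℝ) ^ 6 / c₀ := by
    rw [le_div_iff₀ hc]
    linarith
  have h9 : (cond W : ℝ) = ((cond W : ℝ) ^ κ) ^ (1 / κ) := by
    rw [← Real.rpow_mul (Nat.cast_nonneg _), mul_one_div_cancel hκ.ne', Real.rpow_one]
  rw [h9]
  exact Real.rpow_le_rpow (Real.rpow_nonneg (Nat.cast_nonneg _) _) h8 (by positivity)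

/-- both upper bounds from the count of the starting files -/
theorem upper_of (P : WeierstrassCurve ℤ → Prop) (θ : ℝ)
    (h : ∀ ε : ℝ, 0 < ε → ∃ C : ℝ, 0 < C ∧ ∀ (Z : ℝ) (X : ℕ), 0 < Z → 1 ≤ X →
      (CW P Z X).Finite ∧ ((CW P Z X).ncard : ℝ) ≤ C * Z ^ θ * (X : ℝ) ^ ε) :
    (∀ ε : ℝ, 0 < ε → ∃ C : ℝ, 0 < C ∧ ∀ (Z : ℝ) (X : ℕ), 0 < Z → 1 ≤ X →
      ((Cv P Z X).ncard : ℝ) ≤ C * Z ^ θ * (X : ℝ) ^ ε) ∧
    ∀ κ c₀ ε : ℝ, 0 < κ → 0 < c₀ → 0 < ε → ∃ C : ℝ, 0 < C ∧ ∀ X : ℕ, 1 ≤ X →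
      (Ec P κ c₀ X).Finite ∧ ((Ec P κ c₀ X).ncard : ℝ) ≤ C * (X : ℝ) ^ (6 * θ / κ + ε) := by
  have main : ∀ ε : ℝ, 0 < ε → ∃ C : ℝ, 0 < C ∧ ∀ (Z : ℝ) (X : ℕ), 0 < Z → 1 ≤ X →
      ((Cv P Z X).ncard : ℝ) ≤ C * Z ^ θ * (X : ℝ) ^ ε := by
    intro ε hε
    obtain ⟨C, hC, h1⟩ := h ε hε
    refine ⟨C, hC, fun Z X hZ hX => ?_⟩
    obtain ⟨h2, h3⟩ := h1 Z X hZ hX
    refine le_trans ?_ h3
    exact_mod_cast Set.ncard_le_ncard (cv_sub P Z X) h2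
  refine ⟨main, fun κ c₀ ε hκ hc hε => ?_⟩
  obtain ⟨C, hC, h1⟩ := main ε hε
  refine ⟨C * (1 / c₀) ^ (θ / κ), by positivity, fun X hX => ?_⟩
  have hX1 : (1 : ℝ) ≤ X := by exact_mod_cast hX
  have hX0 : (0 : ℝ) < X := by linarith
  have hsub := ec_sub P hκ hc X
  refine ⟨(cv_finite _ _ _).subset hsub, ?_⟩
  set Z : ℝ := ((X : ℝ) ^ 6 / c₀) ^ (1 / κ) with hZ
  have hZ0 : 0 < Z := by positivity
  have h2 : ((Ec P κ c₀ X).ncard : ℝ) ≤ ((Cv P Z X).ncard : ℝ) := by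
    exact_mod_cast Set.ncard_le_ncard hsub (cv_finite _ _ _)
  refine h2.trans ((h1 Z X hZ0 hX).trans (le_of_eq ?_))
  have h3 : Z ^ θ = (1 / c₀) ^ (θ / κ) * (X : ℝ) ^ (6 * θ / κ) := by
    rw [hZ, ← Real.rpow_mul (by positivity), div_eq_mul_one_div, mul_comm ((X : ℝ) ^ 6),
      Real.mul_rpow (by positivity) (by positivity)]
    congr 1
    · congr 1
      ring
    · rw [← Real.rpow_natCast (X : ℝ) 6, ← Real.rpow_mul hX0.le]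
      congr 1
      push_cast
      ring
  rw [h3, Real.rpow_add hX0]
  ring

theorem upper2 :
    (∀ ε : ℝ, 0 < ε → ∃ C : ℝ, 0 < C ∧ ∀ (Z : ℝ) (X : ℕ), 0 < Z → 1 ≤ X →
      ((Cv Two Z X).ncard : ℝ) ≤ C * Z ^ ((5 : ℝ) / 6) * (X : ℝ) ^ ε) ∧
    ∀ κ c₀ ε : ℝ, 0 < κ → 0 < c₀ → 0 < ε → ∃ C : ℝ, 0 < C ∧ ∀ X : ℕ, 1 ≤ X →
      (Ec Two κ c₀ X).Finite ∧ ((Ec Two κ c₀ X).ncard : ℝ) ≤ C * (X : ℝ) ^ (6 * (5 / 6) / κ + ε) :=
  upper_of Two (5 / 6) Pool.Agent.Y670.TC.two_cond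

theorem upper3 :
    (∀ ε : ℝ, 0 < ε → ∃ C : ℝ, 0 < C ∧ ∀ (Z : ℝ) (X : ℕ), 0 < Z → 1 ≤ X →
      ((Cv Three Z X).ncard : ℝ) ≤ C * Z ^ ((4 : ℝ) / 5) * (X : ℝ) ^ ε) ∧
    ∀ κ c₀ ε : ℝ, 0 < κ → 0 < c₀ → 0 < ε → ∃ C : ℝ, 0 < C ∧ ∀ X : ℕ, 1 ≤ X →
      (Ec Three κ c₀ X).Finite ∧ ((Ec Three κ c₀ X).ncard : ℝ) ≤ C * (X : ℝ) ^ (6 * (4 / 5) / κ + ε) :=
  upper_of Three (4 / 5) Pool.Agent.Y670.TI.three_cond

end Pool.Agent.R417.BC
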